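import Pool.Agent.LRG.StmtsC

/-!
Squad LRG, row KLB: all fields of the arc are contained in `CjF (Cst D x)`.
-/

set_option autoImplicit false

open Polynomial NumberField

namespace Pool.Agent.LRG.H47

open Pool.Agent.LRG Pool.Agent.LRG.CX

theorem klb (hCPR : CprStmt) (hRUN : RunStmt) (_ : A.MchStmt) (hSPL : A.SplStmt)
    (hTRC : A.TrcStmt) (hNMC : NmcStmt) (hTPM : TpmStmt) (hGRZ : GrzStmt) (hGDZ : GdzStmt)
    (hIND : IndStmt) (hLGR : LgrStmt) : KlbStmt := by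
  intro Ω _ _ n r p q z₀ e η D x B N z g K _ u π S hfd
  by_contra hK
  have hη : ∀ s, η s ∈ Rx η x := fun s => Subring.subset_closure (Or.inl ⟨s, rfl⟩)
  have hx : ∀ i j, x i j ∈ Rx η x := fun i j => Subring.subset_closure (Or.inr ⟨(i, j), rfl⟩)
  have hprod : ∀ i, ∏ j, x i j = 1 ∨ ∏ j, x i j = -1 := fun i =>
    hCPR Ω n (e i) _ (x i) S.hn (S.he i) (S.split i)
  obtain ⟨hx0, -, hrun⟩ := hRUN Ω n r (Rx η x) x hx hprod
  obtain ⟨hg0, -⟩ := hrun ℂ g
  set v : Fin r → (K →+* ℂ) → ℂ := fun i σ => σ ((u i : 𝓞 K) : K) with hv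
  have hinj : ∀ i, Function.Injective (v i) := fun i =>
    (hSPL K (u i : 𝓞 K) (S.gen i) ℂ).1
  have hX0 : ∀ i j, v i (π i j) ≠ 0 := by
    intro i j
    have h1 := hg0 i j
    rw [S.gx i j (hx i j)] at h1
    exact h1
  set y : Ix n r → ℂ := fun s => (z₀ s : ℂ) + (p : ℂ) ^ 2 * (z s : ℂ) with hy
  have hyp : ∀ s, y s = ((pt n K u s : ℤ) : ℂ) := by
    intro s
    rw [S.hpt s, hy]
    push_cast
    rfl
  have hytr : ∀ i i' (a b : Fin n), y (Sum.inr (i, i', a, b)) =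
      ∑ σ, v i σ ^ (a : ℕ) * v i' σ ^ (b : ℕ) := by
    intro i i' a b
    rw [hyp]
    have h1 := hTRC K ((u i : 𝓞 K) ^ (a : ℕ) * (u i' : 𝓞 K) ^ (b : ℕ)) ℂ
    have h2 : pt n K u (Sum.inr (i, i', a, b)) =
      Algebra.trace ℤ (𝓞 K) ((u i : 𝓞 K) ^ (a : ℕ) * (u i' : 𝓞 K) ^ (b : ℕ)) := rfl
    rw [h2, h1]
    refine Finset.sum_congr rfl fun σ _ => ?_
    rw [hv]
    simp only [map_mul, map_pow]
  -- the identity over the complex numbers
  have htop : TopId y (fun i j => v i (π i j)) N := by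
    have h1 := hTPM Ω ℂ n r q (Rx η x)
      (fun s => ((z₀ s : Rx η x)) + (p : Rx η x) ^ 2 * ⟨η s, hη s⟩)
      (fun i j => ⟨x i j, hx i j⟩) N (by
        have h2 := S.top
        have e1 : (fun s => ((((z₀ s : Rx η x)) + (p : Rx η x) ^ 2 * ⟨η s, hη s⟩ : Rx η x) : Ω))
            = fun s => (z₀ s : Ω) + (p : Ω) ^ 2 * η s := by
          funext s
          push_cast
          rfl
        rw [e1]
        exact h2) g
    have e2 : (fun s => g ((z₀ s : Rx η x) + (p : Rx η x) ^ 2 * ⟨η s, hη s⟩)) = y := by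
      funext s
      rw [map_add, map_mul, map_pow, map_intCast, map_natCast, S.gη s (hη s)]
    have e3 : (fun i j => g ⟨x i j, hx i j⟩) = fun i j => v i (π i j) := by
      funext i j
      exact S.gx i j (hx i j)
    rw [e2, e3] at h1
    exact h1
  -- the relations of the logarithms
  have hlog := hLGR Ω D (Fin r × Fin n) (fun k => x k.1 k.2) (fun k => v k.1 (π k.1 k.2)) q B N
    (fun k => hx0 k.1 k.2) (fun k => hX0 k.1 k.2) S.rel
    (fun μ hμ => hNMC Ω n r p q z₀ e η D x B N z g K u π S hfd hK μ hμ)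
  set Z : Fin q → ℝ := fun l => Real.log ‖∏ k' : Fin r × Fin n, v k'.1 (π k'.1 k'.2) ^ B l k'‖
    with hZ
  have hdet := hGRZ n r q (K →+* ℂ) y v π N hinj hytr htop Z
  have hent : ∀ i (σ : K →+* ℂ), ∑ l, (N (i, (π i).symm σ) l : ℝ) * Z l = Real.log ‖v i σ‖ := by
    intro i σ
    have h1 := hlog (i, (π i).symm σ)
    simp only [Equiv.apply_symm_apply] at h1
    rw [h1]
  simp only [hent] at hdet
  obtain ⟨c, hc0, hc⟩ := hGDZ r (K →+* ℂ) (fun i σ => Real.log ‖v i σ‖) hdet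
  exact hc0 (hIND K r u S.rank S.ind c hc)

end Pool.Agent.LRG.H47
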