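import Pool.Agent.LRG.StmtsE

/-!
Squad LRG, row BLC: the blocks.
-/

set_option autoImplicit false

open Polynomial NumberField

namespace Pool.Agent.LRG.H47

open Pool.Agent.LRG Pool.Agent.LRG.E

theorem st_st {r₁ r₂ : ℕ} (o : Ro r₁ r₂) : st (st o) = o := by
  rcases o with i | ⟨j, b⟩
  · rfl
  · simp [st]

theorem omre_st {r₁ r₂ : ℕ} (o : Ro r₁ r₂) : omre (st o) = omre o := by
  rcases o with i | ⟨j, b⟩
  · rfl
  · rfl

theorem omim_st {r₁ r₂ : ℕ} (o : Ro r₁ r₂) : omim (st o) = - omim o := by
  rcases o with i | ⟨j, b⟩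
  · simp [st, omim]
  · cases b <;> simp [st, omim]

theorem mem_blk {r₁ r₂ : ℕ} {K : Type} [Field K] [NumberField K] (e : Ro r₁ r₂ ≃ (K →+* ℂ))
    (M : IntermediateField ℚ K) (τ : M →+* ℂ) (o : Ro r₁ r₂) :
    o ∈ blk e M τ ↔ (e o).comp (algebraMap M K) = τ := by
  classical
  unfold blk
  rw [Finset.mem_filter]
  simp

theorem blc : BlcStmt := by
  intro hTRE r₁ r₂ t x K _ _ θ e hF M
  have hmap : ∀ τ : M →+* ℂ, ∀ σ : K →+* ℂ, σ ∈ (blk e M τ).map e.toEmbedding ↔
      σ.comp (algebraMap M K) = τ := by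
    intro τ σ
    rw [Finset.mem_map]
    constructor
    · rintro ⟨o, ho, rfl⟩
      exact (mem_blk e M τ o).1 ho
    · intro h
      refine ⟨e.symm σ, (mem_blk e M τ _).2 ?_, ?_⟩
      · rw [Equiv.apply_symm_apply]; exact h
      · simp
  have hst : ∀ (τ : M →+* ℂ) (o : Ro r₁ r₂), o ∈ blk e M τ →
      st o ∈ blk e M (ComplexEmbedding.conjugate τ) := by
    intro τ o ho
    rw [mem_blk] at ho ⊢
    rw [← hF.cj o, ← ho]
    ext a
    rfl
  have hcc : ∀ τ : M →+* ℂ, ComplexEmbedding.conjugate (ComplexEmbedding.conjugate τ) = τ := by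
    intro τ
    ext a
    simp
  refine ⟨?_, ?_, ?_, ?_⟩
  · intro τ τ' hne
    rw [Finset.disjoint_left]
    intro o h1 h2
    rw [mem_blk] at h1 h2
    exact hne (h1.symm.trans h2)
  · intro τ
    obtain ⟨h1, -⟩ := hTRE K M τ θ _ (hmap τ)
    rw [h1, Finset.sum_map]
    exact Finset.sum_congr rfl fun o _ => hF.emb o
  · intro τ
    obtain ⟨-, h1⟩ := hTRE K M τ θ _ (hmap τ)
    rw [← h1, Finset.card_map]
  · intro τ
    constructor
    · unfold zre
      refine Finset.sum_nbij' st st ?_ ?_ ?_ ?_ ?_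
      · intro o ho
        have := hst _ o ho
        rwa [hcc] at this
      · intro o ho
        exact hst _ o ho
      · intro o _
        exact st_st o
      · intro o _
        exact st_st o
      · intro o _
        rw [omre_st]
    · unfold zim
      rw [← Finset.sum_neg_distrib]
      refine Finset.sum_nbij' st st ?_ ?_ ?_ ?_ ?_
      · intro o ho
        have := hst _ o ho
        rwa [hcc] at this
      · intro o ho
        exact hst _ o ho
      · intro o _
        exact st_st o
      · intro o _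
        exact st_st o
      · intro o _
        rw [omim_st]
        ring

end Pool.Agent.LRG.H47
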