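import Pool.Agent.LRG.StmtsE

/-!
Squad LRG, row KRO: a unit of a field of degree `n` is not very close to the unit circle unless it
is on it.
-/

set_option autoImplicit false

open Polynomial NumberField

namespace Pool.Agent.LRG.H47

open Pool.Agent.LRG Pool.Agent.LRG.E

theorem kro : KroStmt := by
  intro n hn
  set B : ℝ := 3 with hB
  set C : ℕ := ⌈(max B 1) ^ n * (n.choose (n / 2) : ℝ)⌉₊ with hC
  have hfin := Polynomial.bUnion_roots_finite (algebraMap ℤ ℂ) n
    (Set.finite_Icc (-(C : ℤ)) (C : ℤ))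
  set Zs : Set ℂ := ⋃ (f : ℤ[X]) (_ : f.natDegree ≤ n ∧ ∀ i, f.coeff i ∈ Set.Icc (-(C : ℤ)) (C : ℤ)),
    ((f.map (algebraMap ℤ ℂ)).roots.toFinset : Set ℂ) with hZs
  set W : Set ℝ := insert 1 ((fun z : ℂ => |Real.log ‖z‖|) '' Zs ∩ {w | w ≠ 0}) with hW
  have hWfin : W.Finite := (Set.Finite.inter_of_left (hfin.image _) _).insert 1
  have hWpos : ∀ w ∈ W, 0 < w := by
    rintro w (rfl | ⟨⟨z, _, rfl⟩, hw⟩)
    · exact one_pos
    · exact lt_of_le_of_ne (abs_nonneg _) (Ne.symm hw)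
  obtain ⟨c, hcW, hc⟩ := Set.exists_min_image W id hWfin ⟨1, Set.mem_insert _ _⟩
  refine ⟨c, hWpos c hcW, ?_⟩
  intro K _ _ hK u hu σ
  have hc1 : c ≤ 1 := hc 1 (Set.mem_insert _ _)
  set a : K := ((u : 𝓞 K) : K) with ha
  have ha0 : a ≠ 0 := by
    rw [ha]
    intro h0
    have h1 : (u : 𝓞 K) = 0 := by
      apply RingOfIntegers.coe_injective
      exact h0.trans (map_zero _).symm
    exact u.ne_zero h1
  have hpos : ∀ τ : K →+* ℂ, 0 < ‖τ a‖ := fun τ => norm_pos_iff.2 ((map_ne_zero τ).2 ha0)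
  have hle : ∀ τ : K →+* ℂ, ‖τ a‖ ≤ B := by
    intro τ
    have h1 : Real.log ‖τ a‖ < 1 := lt_of_le_of_lt (le_abs_self _) (lt_of_lt_of_le (hu τ) hc1)
    have h2 : ‖τ a‖ < Real.exp 1 := by
      rw [← Real.log_lt_iff_lt_exp (hpos τ)]
      exact h1
    exact h2.le.trans (by rw [hB]; exact Real.exp_one_lt_three.le)
  have hint : IsIntegral ℤ a := RingOfIntegers.isIntegral_coe (u : 𝓞 K)
  have hcoef := fun i => NumberField.Embeddings.coeff_bdd_of_norm_le hle i
  have hmin : minpoly ℚ a = (minpoly ℤ a).map (algebraMap ℤ ℚ) :=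
    minpoly.isIntegrallyClosed_eq_field_fractions' ℚ hint
  have hdeg : (minpoly ℤ a).natDegree ≤ n := by
    have h1 : (minpoly ℚ a).natDegree ≤ Module.finrank ℚ K := minpoly.natDegree_le a
    rw [hmin, (minpoly.monic hint).natDegree_map, hK] at h1
    exact h1
  have hmem : σ a ∈ Zs := by
    rw [hZs]
    refine Set.mem_iUnion₂.2 ⟨minpoly ℤ a, ⟨hdeg, fun i => ?_⟩, ?_⟩
    · have h1 := hcoef i
      rw [hmin, coeff_map, eq_intCast, hK] at h1
      have h2 : |((minpoly ℤ a).coeff i : ℝ)| ≤ (C : ℝ) := by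
        refine le_trans ?_ (Nat.le_ceil _)
        have h3 : ‖(((minpoly ℤ a).coeff i : ℤ) : ℚ)‖ = |((minpoly ℤ a).coeff i : ℝ)| := by
          rw [Int.norm_cast_rat, Int.norm_eq_abs]
        rw [← h3]
        exact h1
      have h4 : |(minpoly ℤ a).coeff i| ≤ (C : ℤ) := by
        have : ((|(minpoly ℤ a).coeff i| : ℤ) : ℝ) ≤ ((C : ℤ) : ℝ) := by
          push_cast
          exact h2
        exact_mod_cast this
      exact ⟨(abs_le.1 h4).1, (abs_le.1 h4).2⟩
    · rw [Finset.mem_coe, Multiset.mem_toFinset, mem_roots', IsRoot.def]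
      refine ⟨?_, ?_⟩
      · exact ((minpoly.monic hint).map _).ne_zero
      · rw [eval_map]
        have h1 : eval₂ (algebraMap ℤ K) a (minpoly ℤ a) = 0 := minpoly.aeval ℤ a
        have h2 := congrArg σ h1
        rw [hom_eval₂, map_zero] at h2
        have h3 : σ.comp (algebraMap ℤ K) = algebraMap ℤ ℂ := RingHom.ext_int _ _
        rw [h3] at h2
        exact h2
  have hlog : Real.log ‖σ a‖ = 0 := by
    by_contra h0
    have h1 : |Real.log ‖σ a‖| ∈ W := by
      rw [hW]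
      exact Or.inr ⟨⟨σ a, hmem, rfl⟩, abs_ne_zero.2 h0⟩
    exact absurd (hu σ) (not_lt.2 (hc _ h1))
  exact Real.eq_one_of_pos_of_log_eq_zero (hpos σ) hlog

end Pool.Agent.LRG.H47
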